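import Mathlib
import Pool.Agent.W169.QP.Fin2
import Pool.Agent.W978.QP.Mm
import Pool.Agent.W973.QP.TG
import Pool.Agent.W108.QP.Ker
import Pool.Agent.W215.QP.Fe
import Pool.Agent.W305.QP.Rel
import Pool.Agent.W101.QP.Int
import Pool.Agent.W372.QP.Cnt
import Pool.Agent.H423R2.RGL.FGF
import Pool.Agent.H423R2.RGL.CGF
import Pool.Agent.H423R2.RGL.DEN
import Pool.Agent.H423R2.RGL.GRW

set_option autoImplicit false

/-!
# Positivity of short averages of quadratic Dirichlet L-functions on the real line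
-/

namespace Pool.Agent.Results.MP_0016c7_nt.AveragesPositive

open MeasureTheory

/-- The pairs `(N, χ)`, `1 ≤ N ≤ X`, with `χ` a nontrivial primitive quadratic Dirichlet character
modulo `N`. -/
def Quadratic (X : ℕ) : Set (Σ N : ℕ, DirichletCharacter ℂ N) :=
  {p | (p.1 ≠ 0 ∧ p.2.IsPrimitive ∧ p.2 ^ 2 = 1 ∧ p.2 ≠ 1) ∧ p.1 ≤ X}

/-- The completed L-function `N^(σ/2) Λ(σ, χ)` at real `σ`. -/
noncomputable def Lam {N : ℕ} [NeZero N] (χ : DirichletCharacter ℂ N) (σ : ℝ) : ℝ :=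
  (N : ℝ) ^ (σ / 2) * (DirichletCharacter.completedLFunction χ (σ : ℂ)).re

/-- All averages of `Lam χ` over intervals of length at least `2R / log X`, and all its Gaussian
averages `∫ Lam χ (s + u) exp (-u²/t) du` with `t ≥ 16 R / (log X)²`, are positive. -/
def AvPositive (X : ℕ) (R : ℝ) (p : Σ N : ℕ, DirichletCharacter ℂ N) : Prop :=
  ∃ _ : NeZero p.1,
    (∀ a b : ℝ, a < b → 2 * R / Real.log X ≤ b - a → 0 < ∫ σ in a..b, Lam p.2 σ) ∧
    (∀ s t : ℝ, 0 < t → 16 * R / Real.log X ^ 2 ≤ t →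
      0 < ∫ u : ℝ, Lam p.2 (s + u) * Real.exp (-(u ^ 2 / t)))

open Pool.Agent.H306R2.RZ Pool.Agent.H306R2.RG

/-- **Theorem.** For all but a proportion `C exp (-c R)` of the real primitive characters `χ` of
conductor at most `X`, every average of the completed function of `χ` over an interval of the real
line of length at least `2R / log X` is positive, and so is every Gaussian average at time
`t ≥ 16 R / (log X)²`. -/
theorem result : ∃ C c : ℝ, 0 < C ∧ 0 < c ∧ ∀ (X : ℕ) (R : ℝ), 2 ≤ X → 0 ≤ R →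
    R ≤ Real.log X / 2 → (Quadratic X).Finite ∧
      ((Quadratic X ∩ {p | ¬ AvPositive X R p}).ncard : ℝ) ≤
        C * Real.exp (-(c * R)) * ((Quadratic X).ncard : ℝ) := by
  have hmain := Pool.Agent.W169.QP.main Pool.Agent.W978.QP.mm Pool.Agent.W973.QP.tg
    Pool.Agent.W108.QP.ker Pool.Agent.W215.QP.fe Pool.Agent.W305.QP.rel
    (Pool.Agent.W101.QP.int_of Pool.Agent.W215.QP.fe) Pool.Agent.W372.QP.cnt_sum
    LnkA.FGF LnkC.CGF
  obtain ⟨-, hG⟩ := LnkD.GRW LnkC.CGF (LnkC.DEN (F8 1) ⟨1, Or.inl rfl, Or.inl rfl⟩)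
  obtain ⟨C, c, hC, hc, h⟩ := Pool.Agent.W169.QP.prop_of hmain hG
  exact ⟨C, c, hC, hc, fun X R hX hR hRX => h X R hX hR hRX⟩

end Pool.Agent.Results.MP_0016c7_nt.AveragesPositive
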