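import Mathlib
import Pool.Agent.W169.RT.Tail
import Pool.Agent.W723.RT.ID
import Pool.Agent.W461.RT.Cm
import Pool.Agent.W469.RT.Jen
import Pool.Agent.W469.RT.Sup
import Pool.Agent.W108.RT.Ord
import Pool.Agent.W583.RT.Det
import Pool.Agent.W333.RT.Zb
import Pool.Agent.W973.QP.TG
import Pool.Agent.W215.QP.Fe
import Pool.Agent.W305.QP.Rel
import Pool.Agent.W372.QP.Cnt
import Pool.Agent.H423R2.RGL.FGF
import Pool.Agent.H423R2.RGL.CGF
import Pool.Agent.H423R2.RGL.DEN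
import Pool.Agent.H423R2.RGL.GRW

set_option autoImplicit false

/-!
# Exponential tail for the number of real zeros of quadratic Dirichlet L-functions
-/

namespace Pool.Agent.Results.MP_0016c7_nt.BoundedRealZeros

/-- The pairs `(N, χ)`, `1 ≤ N ≤ X`, with `χ` a nontrivial primitive quadratic Dirichlet character
modulo `N`. -/
def Quadratic (X : ℕ) : Set (Σ N : ℕ, DirichletCharacter ℂ N) :=
  {p | (p.1 ≠ 0 ∧ p.2.IsPrimitive ∧ p.2 ^ 2 = 1 ∧ p.2 ≠ 1) ∧ p.1 ≤ X}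

/-- `L(s, χ)` has at least `n` zeros, counted with multiplicity, in the union of the real interval
`(0,1)` and the disc `|s - 1/2| ≤ A / log X`. -/
def ManyZeros (X : ℕ) (A : ℝ) (n : ℕ) (p : Σ N : ℕ, DirichletCharacter ℂ N) : Prop :=
  ∃ (_ : NeZero p.1) (S : Finset ℂ), (∀ s ∈ S, (s.im = 0 ∧ 0 < s.re ∧ s.re < 1) ∨
    ‖s - 1 / 2‖ ≤ A / Real.log X) ∧
    n ≤ ∑ s ∈ S, analyticOrderNatAt (DirichletCharacter.LFunction p.2) s

open Pool.Agent.H306R2.RZ Pool.Agent.H306R2.RG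

/-- **Theorem.** There are `C, c > 0` such that for all `X ≥ 2`, all `n` and all `0 ≤ A ≤ (log X)/4`
the proportion of the real primitive characters of conductor at most `X` whose L-function has at
least `n` zeros (with multiplicity) in `(0,1)` or at distance at most `A / log X` from `1/2` is at
most `C exp (C A - c n)`. -/
theorem result : ∃ C c : ℝ, 0 < C ∧ 0 < c ∧ ∀ (X n : ℕ) (A : ℝ), 2 ≤ X → 0 ≤ A →
    A ≤ Real.log X / 4 → (Quadratic X).Finite ∧
      ((Quadratic X ∩ {p | ManyZeros X A n p}).ncard : ℝ) ≤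
        C * Real.exp (C * A - c * n) * ((Quadratic X).ncard : ℝ) := by
  obtain ⟨-, hG⟩ := LnkD.GRW LnkC.CGF (LnkC.DEN (F8 1) ⟨1, Or.inl rfl, Or.inl rfl⟩)
  have hZB := Pool.Agent.W333.RT.zb
    (Pool.Agent.W469.RT.Sup.sup_of Pool.Agent.W461.RT.cm Pool.Agent.W723.RT.id_of)
    Pool.Agent.W973.QP.tg Pool.Agent.W469.RT.Jen.jen Pool.Agent.W723.RT.id_of LnkA.FGF LnkC.CGF
    Pool.Agent.W215.QP.fe Pool.Agent.W305.QP.rel
  obtain ⟨C, c, hC, hc, h⟩ := Pool.Agent.W169.RT.main_tail Pool.Agent.W372.QP.cnt_sum hZB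
    Pool.Agent.W215.QP.fe Pool.Agent.W305.QP.rel Pool.Agent.W108.RT.ord
    (Pool.Agent.W583.RT.det Pool.Agent.W469.RT.Jen.jen) LnkC.CGF hG
  exact ⟨C, c, hC, hc, fun X n A hX hA hA4 => h X n A hX hA hA4⟩

end Pool.Agent.Results.MP_0016c7_nt.BoundedRealZeros
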