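import Mathlib
import Pool.Agent.W169.RT.Der3
import Pool.Agent.W930.RT.Nq
import Pool.Agent.W29.RT.Loc
import Pool.Agent.W723.RT.CG
import Pool.Agent.W215.RT.Kc
import Pool.Agent.W723.RT.ID
import Pool.Agent.W461.RT.Cm
import Pool.Agent.W469.RT.Jen
import Pool.Agent.W469.RT.Sup
import Pool.Agent.W333.RT.Zb
import Pool.Agent.W973.QP.TG
import Pool.Agent.W215.QP.Fe
import Pool.Agent.W305.QP.Rel
import Pool.Agent.W372.QP.Cnt
import Pool.Agent.H423R2.RGL.FGF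
import Pool.Agent.H423R2.RGL.CGF
import Pool.Agent.H423R2.RGL.DEN
import Pool.Agent.H423R2.RGL.GRW

set_option autoImplicit false

/-!
# Derivatives of completed quadratic L-functions near the central point
-/

namespace Pool.Agent.Results.MP_0016c7_nt.DerivativesPositive

/-- The pairs `(N, χ)`, `1 ≤ N ≤ X`, with `χ` a nontrivial primitive quadratic Dirichlet character
modulo `N`. -/
def Quadratic (X : ℕ) : Set (Σ N : ℕ, DirichletCharacter ℂ N) :=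
  {p | (p.1 ≠ 0 ∧ p.2.IsPrimitive ∧ p.2 ^ 2 = 1 ∧ p.2 ≠ 1) ∧ p.1 ≤ X}

/-- The completed L-function `Λ_χ(s) = N^(s/2) Λ(s, χ)`. -/
noncomputable def Lam {N : ℕ} [NeZero N] (χ : DirichletCharacter ℂ N) (s : ℂ) : ℂ :=
  (N : ℂ) ^ (s / 2) * DirichletCharacter.completedLFunction χ s

/-- The real function `σ ↦ N^(σ/2) Re Λ(σ, χ)` of a real variable. -/
noncomputable def LamR {N : ℕ} [NeZero N] (χ : DirichletCharacter ℂ N) (σ : ℝ) : ℝ :=
  (N : ℝ) ^ (σ / 2) * (DirichletCharacter.completedLFunction χ (σ : ℂ)).re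

/-- For all `n` with `R ≤ n ≤ c log X`: (i) if `n` is even, the `n`-th derivative of `Λ_χ` is
positive on the real interval `[1/2 - c, 1/2 + c]`; (ii) all zeros of the `n`-th derivative of `Λ_χ`
in the box `|Re s - 1/2| ≤ c`, `|Im s| ≤ c n / log X` lie on the critical line and are simple. -/
def DerivativesGood (c : ℝ) (X : ℕ) (R : ℝ) (p : Σ N : ℕ, DirichletCharacter ℂ N) : Prop :=
  ∃ _ : NeZero p.1, ∀ n : ℕ, R ≤ n → (n : ℝ) ≤ c * Real.log X →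
    (Even n → ∀ σ : ℝ, |σ - 1 / 2| ≤ c → 0 < iteratedDeriv n (LamR p.2) σ) ∧
    (∀ s : ℂ, |s.re - 1 / 2| ≤ c → |s.im| ≤ c * n / Real.log X →
      iteratedDeriv n (Lam p.2) s = 0 → s.re = 1 / 2 ∧ iteratedDeriv (n + 1) (Lam p.2) s ≠ 0)

open Pool.Agent.H306R2.RZ Pool.Agent.H306R2.RG

/-- **Theorem.** There are `C, c > 0` such that for all `X ≥ 2` and all `R ≥ 0`, for all but a
proportion `C exp (- c R)` of the real primitive characters `χ` of conductor at most `X`, all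
derivatives of `Λ_χ` of order `n`, `R ≤ n ≤ c log X`, are good in the above sense. -/
theorem result : ∃ C c : ℝ, 0 < C ∧ 0 < c ∧ ∀ (X : ℕ) (R : ℝ), 2 ≤ X → 0 ≤ R →
    (Quadratic X).Finite ∧
      ((Quadratic X ∩ {p | ¬ DerivativesGood c X R p}).ncard : ℝ) ≤
        C * Real.exp (-(c * R)) * ((Quadratic X).ncard : ℝ) := by
  obtain ⟨-, hG⟩ := LnkD.GRW LnkC.CGF (LnkC.DEN (F8 1) ⟨1, Or.inl rfl, Or.inl rfl⟩)
  have hZB := Pool.Agent.W333.RT.zb
    (Pool.Agent.W469.RT.Sup.sup_of Pool.Agent.W461.RT.cm Pool.Agent.W723.RT.id_of)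
    Pool.Agent.W973.QP.tg Pool.Agent.W469.RT.Jen.jen Pool.Agent.W723.RT.id_of LnkA.FGF LnkC.CGF
    Pool.Agent.W215.QP.fe Pool.Agent.W305.QP.rel
  have hNQ := Pool.Agent.W930.RT.nq Pool.Agent.W461.RT.cm Pool.Agent.W723.RT.cg
    Pool.Agent.W215.RT.kc Pool.Agent.W973.QP.tg Pool.Agent.W723.RT.id_of LnkA.FGF LnkC.CGF
  obtain ⟨C, c, hC, hc, h⟩ := Pool.Agent.W169.RT.main_der Pool.Agent.W372.QP.cnt_sum hZB hNQ
    Pool.Agent.W29.RT.Loc.loc Pool.Agent.W723.RT.id_of Pool.Agent.W215.QP.fe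
    Pool.Agent.W305.QP.rel LnkA.FGF LnkC.CGF hG
  refine ⟨C, c, hC, hc, fun X R hX hR => ?_⟩
  obtain ⟨h1, h2⟩ := h X R hX hR
  refine ⟨h1, le_trans ?_ h2⟩
  have hsub : (Quadratic X ∩ {p | ¬ DerivativesGood c X R p}) ⊆
      ((LnkC.RPC ∩ {p | p.1 ≤ X}) ∩ {p | ¬ Pool.Agent.W169.RT.DerGood c X R p}) := by
    rintro p ⟨hp1, hp2⟩
    refine ⟨hp1, fun hp3 => hp2 ?_⟩
    obtain ⟨hN, hp3⟩ := hp3
    exact ⟨hN, fun n hn hnX => ⟨(hp3 n hn hnX).2, (hp3 n hn hnX).1⟩⟩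
  exact_mod_cast Set.ncard_le_ncard hsub (h1.subset Set.inter_subset_left)

end Pool.Agent.Results.MP_0016c7_nt.DerivativesPositive
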