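import Pool.Agent.W189.RZ.Prime

/-!
# Real zeros of quadratic `L`-functions and a smoothed sum over primes

Let `χ` be a nontrivial quadratic character modulo `N`. For `T > 0` put

`S(T) = ∑_n Λ(n) χ(n) / (log n √n Γ(1 + log n / T))`, `B(T) = ∑_p χ(p) / (√p Γ(1 + log p / T))`.

The series converge absolutely, with no hypothesis, since `1/Γ` decays faster than exponentially. They are smooth
versions of `log L(1/2, χ)` and of the sum `∑_{p ≤ X} χ(p)/√p`, `T = log X`, which measures the bias of Chebyshev.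
With the sharp cut-off such sums are controlled by all the complex zeros (the estimate
`∑_{p ≤ X} χ(p)/√p = - (m + 1/2) log log X + O(1)` of Aoki and Koyama needs more than the Riemann hypothesis). Here the
complex zeros play no role: with `κ = ∫_0^∞ (e^{-t} - 1/Γ(1+t)) dt/t` and
`g(y) = ∫_0^∞ (e^{yu} - 1) du/(u Γ(1+u))` we show, unconditionally:

* `B(T) = S(T) - (1/2) log T + O(1)`.
* If `L(s, χ)` has no real zero `> 1/2`, then, with `m` the order and `λ` the leading Taylor coefficient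
  of `L(s, χ)` at `s = 1/2`, `λ > 0` and `S(T) = log λ - m (log T - κ) + O(1/T)`. So
  `B(T) = - (m + 1/2) log T + O(1)`.
* If there are real zeros `> 1/2`, `β` the largest one and `m` its multiplicity, then
  `S(T) ∼ - m g((β - 1/2) T)`, and `S(T) ≤ - exp(exp(yT))` for large `T`, for every `y < β - 1/2`.
* `L(σ, χ) > 0` for all `0 < σ < 1` if and only if `S(T)` is bounded below, if and only if
  `B(T) ≥ - (1/2) log T - C`. In the opposite case `S(T) → - ∞`.
-/

set_option autoImplicit false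

namespace Pool.Agent.Results.MP_0016c7_nt.MittagLefflerRealZeros

open Filter Topology DirichletCharacter Pool.Agent.W189.LC Pool.Agent.W189.ML Pool.Agent.W189.RZ

/-- **Positivity of quadratic `L`-functions on `(0, 1)` from smoothed sums over primes.** -/
theorem result {N : ℕ} [NeZero N] (χ : DirichletCharacter ℂ N) (h1 : χ ≠ 1) (h2 : χ ^ 2 = 1) :
    (∀ T : ℝ, 0 < T → Summable fun n : ℕ => |term χ T n|) ∧
    ((fun T : ℝ => B χ T - (S χ T - 1 / 2 * Real.log T)) =O[atTop] fun _ : ℝ => (1 : ℝ)) ∧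
    ((∀ σ : ℝ, 1 / 2 < σ → χ.LFunction σ ≠ 0) → ∃ (m : ℕ) (l : ℝ),
      analyticOrderAt χ.LFunction (1 / 2) = m ∧
      iteratedDeriv m χ.LFunction (1 / 2) / (m.factorial : ℂ) = l ∧ 0 < l ∧
      (fun T : ℝ => S χ T - (Real.log l - m * (Real.log T - kap))) =O[atTop] fun T : ℝ => 1 / T) ∧
    ((∃ σ : ℝ, 1 / 2 < σ ∧ χ.LFunction σ = 0) → ∃ (β : ℝ) (m : ℕ), 1 / 2 < β ∧ β < 1 ∧
      χ.LFunction β = 0 ∧ (∀ σ : ℝ, β < σ → χ.LFunction σ ≠ 0) ∧
      analyticOrderAt χ.LFunction β = m ∧
      Tendsto (fun T : ℝ => S χ T / grow ((β - 1 / 2) * T)) atTop (𝓝 (-m)) ∧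
      ∀ y < β - 1 / 2, ∀ᶠ T : ℝ in atTop, S χ T ≤ -Real.exp (Real.exp (y * T))) ∧
    (Pos χ ↔ ∃ C : ℝ, ∀ᶠ T : ℝ in atTop, C ≤ S χ T) ∧
    (Pos χ ↔ ∃ C : ℝ, ∀ᶠ T : ℝ in atTop, -(1 / 2 * Real.log T) - C ≤ B χ T) ∧
    (¬ Pos χ ↔ Tendsto (S χ) atTop atBot) := by
  have E := ep χ
  have hd := differentiable_LFunction h1
  have hBS := B_S h2
  have hreg : (∀ σ : ℝ, 1 / 2 < σ → χ.LFunction σ ≠ 0) → ∃ (m : ℕ) (l : ℝ),
      analyticOrderAt χ.LFunction (1 / 2) = m ∧
      iteratedDeriv m χ.LFunction (1 / 2) / (m.factorial : ℂ) = l ∧ 0 < l ∧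
      ∃ C T₀ : ℝ, 0 ≤ C ∧ 1 ≤ T₀ ∧ ∀ T ≥ T₀,
        |S χ T - (Real.log l - m * (Real.log T - kap))| ≤ C / T := by
    intro hz
    have htop := E.order_ne_top (F_mero h1) (F_prod h2) (x := 1) ⟨le_rfl, by norm_num⟩
    rw [Complex.ofReal_one, F_order_one] at htop
    have han := hd.analyticAt (1 / 2)
    obtain ⟨m, hm⟩ : ∃ m : ℕ, analyticOrderAt χ.LFunction (1 / 2) = m := by
      cases h : analyticOrderAt χ.LFunction (1 / 2) with
      | top =>
        exfalso
        apply htop
        rw [han.meromorphicOrderAt_eq, h]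
        rfl
      | coe n => exact ⟨n, rfl⟩
    have hm' := (order_nat_iff hd (1 / 2) m).2 hm
    rw [← F_order_one] at hm'
    obtain ⟨h3, h4, C, T₀, hC, hT₀, h5⟩ := E.regular (F_mero h1) (F_prod h2) hm' (fun σ hσ => by
      rw [F_order, order_zero_iff hd]
      exact hz (σ - 1 / 2) (by linarith [hσ.1]))
    rw [F_coeff_one] at h3 h4
    have h6 := coeff_eq hd hm
    refine ⟨m, (meromorphicTrailingCoeffAt χ.LFunction (1 / 2)).re, hm, ?_, h4, C, T₀, hC, hT₀,
      fun T hT => ?_⟩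
    · rw [← h6]
      apply Complex.ext
      · simp
      · simpa using h3
    · have h7 := h5 T hT
      rw [F_coeff_one] at h7
      rw [S_eq h2]
      exact_mod_cast h7
  have hsing : (∃ σ : ℝ, 1 / 2 < σ ∧ χ.LFunction σ = 0) → ∃ (β : ℝ) (m : ℕ), 1 / 2 < β ∧ β < 1 ∧
      χ.LFunction β = 0 ∧ (∀ σ : ℝ, β < σ → χ.LFunction σ ≠ 0) ∧
      analyticOrderAt χ.LFunction β = m ∧
      Tendsto (fun T : ℝ => S χ T / grow ((β - 1 / 2) * T)) atTop (𝓝 (-m)) ∧
      ∀ y < β - 1 / 2, ∀ᶠ T : ℝ in atTop, S χ T ≤ -Real.exp (Real.exp (y * T)) := by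
    rintro ⟨σ₀, hσ₀, hσz⟩
    have hz : ¬ ∀ σ ∈ Set.Ioc (1 : ℝ) 2, meromorphicOrderAt (F χ) (σ : ℂ) = 0 := by
      intro h
      have h3 : meromorphicOrderAt (F χ) ((σ₀ + 1 / 2 : ℝ) : ℂ) = 0 := by
        by_cases hc : σ₀ + 1 / 2 ≤ 2
        · exact h (σ₀ + 1 / 2) ⟨by linarith, hc⟩
        · push Not at hc
          exact E.order_right (F_mero h1) (F_prod h2) hc
      rw [F_order, add_sub_cancel_right] at h3
      exact (order_zero_iff hd _).1 h3 hσz
    obtain ⟨β, m, h3, h4, hm0, hm, h5, h6, h7⟩ := E.singular (F_mero h1) (F_prod h2) hz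
    rw [F_order] at hm
    have han := hd.analyticAt ((β - 1 / 2 : ℝ) : ℂ)
    have hnn : 0 ≤ m := by
      have := han.meromorphicOrderAt_nonneg
      rw [hm] at this
      exact_mod_cast this
    obtain ⟨n, rfl⟩ := Int.eq_ofNat_of_zero_le hnn
    have hn0 : n ≠ 0 := by
      rintro rfl
      exact hm0 rfl
    have hord : analyticOrderAt χ.LFunction ((β - 1 / 2 : ℝ) : ℂ) = n := (order_nat_iff hd _ n).1 hm
    have hFβ : χ.LFunction ((β - 1 / 2 : ℝ) : ℂ) = 0 := by
      by_contra hne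
      have h8 := (order_zero_iff hd _).2 hne
      rw [hm] at h8
      exact hm0 (by exact_mod_cast h8)
    have hβ1 : β - 1 / 2 < 1 := by
      by_contra hge
      push Not at hge
      exact ne_right h1 hge hFβ
    have h6' : Tendsto (fun T : ℝ => S χ T / grow ((β - 1 / 2 - 1 / 2) * T)) atTop (𝓝 (-n)) := by
      have h8 : (fun T : ℝ => S χ T / grow ((β - 1 / 2 - 1 / 2) * T)) =
          fun T => sm qp (aC χ) z0 T / grow ((β - 1) * T) := by
        funext T
        rw [S_eq h2, show β - 1 / 2 - 1 / 2 = β - 1 by ring]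
      rw [h8]
      simpa using h6
    refine ⟨β - 1 / 2, n, by linarith, hβ1, hFβ, fun σ hσ => ?_, hord, h6', ?_⟩
    · have h8 := h5 (σ + 1 / 2) (by linarith)
      rw [F_order, add_sub_cancel_right] at h8
      exact (order_zero_iff hd _).1 h8
    · intro y hy
      have hnpos : (0 : ℝ) < n := by
        have : 0 < n := Nat.pos_of_ne_zero hn0
        exact_mod_cast this
      filter_upwards [h7 y (by linarith), h6'.eventually (gt_mem_nhds (neg_lt_zero.2 hnpos)),
        eventually_gt_atTop (0 : ℝ)] with T h8 h9 h10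
      have h11 : 0 ≤ grow ((β - 1 / 2 - 1 / 2) * T) := grow_nonneg (mul_nonneg (by linarith) h10.le)
      have h12 : S χ T < 0 := by
        by_contra hneg
        push Not at hneg
        have := div_nonneg hneg h11
        linarith
      rw [← S_eq h2, abs_of_neg h12] at h8
      linarith
  have hbot : ¬ Pos χ → Tendsto (S χ) atTop atBot := by
    intro hP
    rw [pos_iff h1 h2] at hP
    by_cases hz : ∃ σ : ℝ, 1 / 2 < σ ∧ χ.LFunction σ = 0
    · obtain ⟨β, m, h3, -, -, -, -, -, h4⟩ := hsing hz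
      have h5 := h4 ((β - 1 / 2) / 2) (by linarith)
      have h6 : Tendsto (fun T : ℝ => -((β - 1 / 2) / 2 * T)) atTop atBot :=
        tendsto_neg_atTop_atBot.comp (tendsto_id.const_mul_atTop (by linarith))
      refine tendsto_atBot_mono' _ ?_ h6
      filter_upwards [h5] with T h7
      have h8 := Real.add_one_le_exp ((β - 1 / 2) / 2 * T)
      have h9 := Real.add_one_le_exp (Real.exp ((β - 1 / 2) / 2 * T))
      linarith
    · push Not at hz
      obtain ⟨m, l, h3, h4, h5, C, T₀, hC, hT₀, h6⟩ := hreg hz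
      have h7 : χ.LFunction (1 / 2) = 0 := by
        by_contra hne
        apply hP
        intro σ hσ
        rcases hσ.eq_or_lt with h | h
        · rw [← h]
          push_cast
          exact hne
        · exact hz σ h
      have hm : 1 ≤ m := by
        by_contra hlt
        have hm0 : m = 0 := by omega
        rw [hm0] at h3
        exact ((hd.analyticAt (1 / 2)).analyticOrderAt_eq_zero.1 (by exact_mod_cast h3)) h7
      have h8 : Tendsto (fun T : ℝ => -Real.log T + (Real.log l + m * kap + C)) atTop atBot :=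
        tendsto_atBot_add_const_right _ _ (tendsto_neg_atTop_atBot.comp Real.tendsto_log_atTop)
      refine tendsto_atBot_mono' _ ?_ h8
      filter_upwards [eventually_ge_atTop T₀] with T hT
      have hT1 : 1 ≤ T := hT₀.trans hT
      have h9 := (le_abs_self _).trans (h6 T hT)
      have h10 : C / T ≤ C := div_le_self hC hT1
      have h11 : 0 ≤ Real.log T := Real.log_nonneg hT1
      have h12 : (1 : ℝ) ≤ m := by exact_mod_cast hm
      nlinarith
  have hbdd : Pos χ → ∃ C : ℝ, ∀ᶠ T : ℝ in atTop, C ≤ S χ T := by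
    intro hP
    rw [pos_iff h1 h2] at hP
    obtain ⟨m, l, h3, h4, h5, C, T₀, hC, hT₀, h6⟩ := hreg fun σ hσ => hP σ hσ.le
    have h7 : χ.LFunction (1 / 2) ≠ 0 := by
      have := hP (1 / 2) le_rfl
      push_cast at this
      exact this
    have hm : m = 0 := by
      have := (hd.analyticAt (1 / 2)).analyticOrderAt_eq_zero.2 h7
      rw [h3] at this
      exact_mod_cast this
    refine ⟨Real.log l - C, ?_⟩
    filter_upwards [eventually_ge_atTop T₀] with T hT
    have hT1 : 1 ≤ T := hT₀.trans hT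
    have h9 := (neg_le_of_abs_le (h6 T hT))
    have h10 : C / T ≤ C := div_le_self hC hT1
    rw [hm] at h9
    push_cast at h9
    linarith
  have hback : (∃ C : ℝ, ∀ᶠ T : ℝ in atTop, C ≤ S χ T) → Pos χ := by
    rintro ⟨C, hC⟩
    by_contra hP
    have h3 := (hbot hP).eventually (eventually_lt_atBot C)
    obtain ⟨T, h4, h5⟩ := (h3.and hC).exists
    linarith
  obtain ⟨C₁, T₁, hC₁, hT₁, h₁⟩ := hBS
  refine ⟨fun T hT => S_summable h2 hT, ?_, ?_, hsing, ⟨hbdd, hback⟩, ⟨?_, ?_⟩, ⟨hbot, ?_⟩⟩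
  · refine Asymptotics.IsBigO.of_bound C₁ ?_
    filter_upwards [eventually_ge_atTop T₁] with T hT
    rw [Real.norm_eq_abs, norm_one, mul_one]
    exact h₁ T hT
  · intro hz
    obtain ⟨m, l, h3, h4, h5, C, T₀, hC, hT₀, h6⟩ := hreg hz
    refine ⟨m, l, h3, h4, h5, Asymptotics.IsBigO.of_bound C ?_⟩
    filter_upwards [eventually_ge_atTop T₀] with T hT
    have hT1 : 0 < T := by linarith
    rw [Real.norm_eq_abs, Real.norm_eq_abs, abs_of_pos (by positivity : 0 < 1 / T), mul_one_div]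
    exact h6 T hT
  · intro hP
    obtain ⟨C, hC⟩ := hbdd hP
    refine ⟨C₁ - C, ?_⟩
    filter_upwards [hC, eventually_ge_atTop T₁] with T h3 h4
    have h5 := neg_le_of_abs_le (h₁ T h4)
    linarith
  · rintro ⟨C, hC⟩
    refine hback ⟨-C - C₁, ?_⟩
    filter_upwards [hC, eventually_ge_atTop T₁] with T h3 h4
    have h5 := (le_abs_self _).trans (h₁ T h4)
    linarith
  · intro h hP
    obtain ⟨C, hC⟩ := hbdd hP
    have h3 := h.eventually (eventually_lt_atBot C)
    obtain ⟨T, h4, h5⟩ := (h3.and hC).exists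
    linarith

end Pool.Agent.Results.MP_0016c7_nt.MittagLefflerRealZeros
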